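import Mathlib

/-!
Determinants of matrices with entries `(j² - k²)^m ((j² - k²)/p)` modulo `p ≡ 1 (mod 4)`.
-/

namespace Q238.SD

open Finset Matrix

/-- `det [(j² - k²)^m ((j² - k²)/p)]` with `1 ≤ j, k ≤ N`. -/
def sqDet (p m N : ℕ) : ℤ :=
  (Matrix.of fun j k : Fin N =>
    ((((j : ℕ) : ℤ) + 1) ^ 2 - (((k : ℕ) : ℤ) + 1) ^ 2) ^ m
      * jacobiSym ((((j : ℕ) : ℤ) + 1) ^ 2 - (((k : ℕ) : ℤ) + 1) ^ 2) p).det

section Linear

variable {F : Type*} [Field F]

/-- The factorization of a determinant with paired monomials. -/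
lemma det_paired {h : ℕ} (e : Fin 2 × Fin h ≃ Fin (2 * h)) (a : Fin h → F) (x : Fin (2 * h) → F)
    (M : Matrix (Fin (2 * h)) (Fin (2 * h)) F)
    (hM : ∀ j k, M j k = ∑ t, a t * (x j ^ (e (0, t) : ℕ) * x k ^ (e (1, t) : ℕ)
      - x j ^ (e (1, t) : ℕ) * x k ^ (e (0, t) : ℕ))) :
    M.det = ((vandermonde x).det * ∏ t, a t) ^ 2 := by
  set B : Matrix (Fin 2 × Fin h) (Fin 2 × Fin h) F :=
    blockDiagonal (fun t => !![0, a t; -a t, 0]) with hB
  set U : Matrix (Fin 2 × Fin h) (Fin 2 × Fin h) F := (vandermonde x).submatrix e e with hU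
  have h1 : M.submatrix e e = U * B * Uᵀ := by
    ext i i'
    rw [Matrix.mul_apply]
    simp only [Matrix.mul_apply, Matrix.submatrix_apply, hM, Matrix.transpose_apply]
    have h2 : ∀ q : Fin 2 × Fin h, (∑ q', U i q' * B q' q) * U i' q
        = (if q.1 = 0 then (- a q.2 * x (e i) ^ (e (1, q.2) : ℕ)) else
            (a q.2 * x (e i) ^ (e (0, q.2) : ℕ))) * x (e i') ^ (e q : ℕ) := by
      rintro ⟨q1, q2⟩
      have h3 : ∑ q', U i q' * B q' (q1, q2) = ∑ c : Fin 2,
          U i (c, q2) * (!![0, a q2; -a q2, 0] : Matrix (Fin 2) (Fin 2) F) c q1 := by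
        rw [Fintype.sum_prod_type]
        refine sum_congr rfl fun c _ => ?_
        rw [Finset.sum_eq_single q2]
        · rw [hB, blockDiagonal_apply_eq]
        · intro b _ hb
          rw [hB, blockDiagonal_apply_ne _ _ _ hb, mul_zero]
        · intro hq
          exact absurd (mem_univ _) hq
      rw [h3, Fin.sum_univ_two]
      fin_cases q1
      · simp [hU, vandermonde_apply]
        left
        ring
      · simp [hU, vandermonde_apply]
        left
        ring
    rw [sum_congr rfl fun q _ => h2 q, Fintype.sum_prod_type, Fin.sum_univ_two, ← sum_add_distrib]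
    refine sum_congr rfl fun t _ => ?_
    simp
    ring
  have h2 : M.det = (M.submatrix e e).det := (det_submatrix_equiv_self e M).symm
  have h3 : U.det = (vandermonde x).det := det_submatrix_equiv_self e _
  have h4 : B.det = ∏ t, (a t) ^ 2 := by
    rw [hB, det_blockDiagonal]
    refine prod_congr rfl fun t _ => ?_
    rw [det_fin_two_of]
    ring
  rw [h2, h1, det_mul, det_mul, det_transpose, h3, h4, mul_pow, prod_pow]
  ring

/-- Pairing the terms of an odd power of a difference. -/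
lemma odd_power (x y : F) (n : ℕ) :
    (x - y) ^ (2 * n + 1) = ∑ i ∈ range (n + 1), ((2 * n + 1).choose i : F) * (-1) ^ (i + 1)
      * (x ^ i * y ^ (2 * n + 1 - i) - x ^ (2 * n + 1 - i) * y ^ i) := by
  rw [sub_eq_add_neg, add_pow]
  rw [show 2 * n + 1 + 1 = (n + 1) + (n + 1) by ring, sum_range_add,
    ← sum_range_reflect _ (n + 1), ← sum_add_distrib]
  have e : ∀ j ∈ range (n + 1), n + 1 - 1 - j = n - j := fun j _ => by omega
  rw [← sum_range_reflect (fun i => ((2 * n + 1).choose i : F) * (-1) ^ (i + 1)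
      * (x ^ i * y ^ (2 * n + 1 - i) - x ^ (2 * n + 1 - i) * y ^ i)) (n + 1)]
  refine sum_congr rfl fun j hj => ?_
  rw [mem_range] at hj
  set i := n + 1 - 1 - j with hi
  have h1 : n + 1 + j = 2 * n + 1 - i := by omega
  have h2 : 2 * n + 1 - (n + 1 + j) = i := by omega
  have h3 : (2 * n + 1).choose (n + 1 + j) = (2 * n + 1).choose i := by
    rw [h1]
    exact Nat.choose_symm (by omega)
  rw [h3, h2, h1]
  have h4 : (-y) ^ (2 * n + 1 - i) = (-1) ^ (i + 1) * y ^ (2 * n + 1 - i) := by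
    rw [neg_pow]
    congr 1
    have : (-1 : F) ^ (2 * n + 1 - i) * (-1) ^ (i + 1) = 1 := by
      rw [← pow_add, show 2 * n + 1 - i + (i + 1) = 2 * (n + 1) by omega, pow_mul]
      simp
    have h5 : (-1 : F) ^ (i + 1) * (-1) ^ (i + 1) = 1 := by
      rw [← pow_add, ← two_mul, pow_mul]
      simp
    calc (-1 : F) ^ (2 * n + 1 - i) = (-1 : F) ^ (2 * n + 1 - i) * ((-1) ^ (i + 1) * (-1) ^ (i + 1)) := by
          rw [h5, mul_one]
      _ = (-1) ^ (i + 1) := by rw [← mul_assoc, this, one_mul]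
  have h6 : (-y) ^ i = (-1) * (-1) ^ (i + 1) * y ^ i := by
    rw [neg_pow, pow_succ]
    ring
  rw [h4, h6]
  ring

end Linear

end Q238.SD
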