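import Pool.Agent.Q238.SD.Final
import Pool.Agent.Helper848.SqDet

/-!
The determinants are perfect squares.
-/

namespace Q238.SD

open Finset Matrix Nat

theorem exists_sqrt (p : ℕ) [hF : Fact p.Prime] (hp4 : p % 4 = 1) (k N : ℕ) :
    ∃ s : ℤ, s ^ 2 = sqDet p (2 * k + 1) N := by
  have h := Pool.Agent.Helper848.SqDet.isSquare_int (Matrix.of fun j k' : Fin N =>
    ((((j : ℕ) : ℤ) + 1) ^ 2 - (((k' : ℕ) : ℤ) + 1) ^ 2) ^ (2 * k + 1)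
      * jacobiSym ((((j : ℕ) : ℤ) + 1) ^ 2 - (((k' : ℕ) : ℤ) + 1) ^ 2) p) (fun _ => 0) (by
    intro i j
    simp only [Matrix.of_apply]
    have hodd : Odd (2 * k + 1) := ⟨k, rfl⟩
    have e : (((j : ℕ) : ℤ) + 1) ^ 2 - (((i : ℕ) : ℤ) + 1) ^ 2
        = -((((i : ℕ) : ℤ) + 1) ^ 2 - (((j : ℕ) : ℤ) + 1) ^ 2) := by ring
    rw [e, hodd.neg_pow]
    have e2 : jacobiSym (-((((i : ℕ) : ℤ) + 1) ^ 2 - (((j : ℕ) : ℤ) + 1) ^ 2)) p
        = jacobiSym ((((i : ℕ) : ℤ) + 1) ^ 2 - (((j : ℕ) : ℤ) + 1) ^ 2) p := by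
      rw [jacobiSym.neg _ (by
        rcases hF.out.eq_two_or_odd' with h2 | h2
        · omega
        · exact h2)]
      have : ZMod.χ₄ p = 1 := ZMod.χ₄_nat_one_mod_four hp4
      rw [this, one_mul]
    rw [e2]
    ring)
  obtain ⟨s, hs⟩ := h
  refine ⟨s, ?_⟩
  unfold sqDet
  rw [hs, sq]

end Q238.SD
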