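import Pool.Agent.Q238.SD.Basic

/-!
Factorials modulo a prime.
-/

namespace Q238.SD

open Finset Matrix Nat

section Ring

variable {F : Type*} [CommRing F]

/-- `∏_{j < k} (k² - j²) · N! = ∏_{k ≤ N} (2k-1)!`. -/
lemma vand_fact (N : ℕ) :
    (vandermonde (fun j : Fin N => (((j : ℕ) : F) + 1) ^ 2)).det * (N ! : F)
      = ∏ k ∈ range N, ((2 * k + 1)! : F) := by
  have hdet : ∀ N : ℕ, (vandermonde (fun j : Fin N => (((j : ℕ) : F) + 1) ^ 2)).det
      = ∏ j : Fin N, ∏ i ∈ Iio j, ((((j : ℕ) : F) + 1) ^ 2 - (((i : ℕ) : F) + 1) ^ 2) := by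
    intro N
    rw [det_vandermonde]
    refine Finset.prod_comm' ?_
    intro i j
    simp
  induction N with
  | zero => simp
  | succ N ih =>
    rw [hdet] at ih ⊢
    rw [Fin.prod_univ_castSucc, prod_range_succ, ← ih]
    have h1 : ∀ j : Fin N, ∏ i ∈ Iio j.castSucc,
        (((((j.castSucc : Fin (N + 1)) : ℕ) : F) + 1) ^ 2 - ((((i : Fin (N + 1)) : ℕ) : F) + 1) ^ 2)
        = ∏ i ∈ Iio j, ((((j : ℕ) : F) + 1) ^ 2 - (((i : ℕ) : F) + 1) ^ 2) := by
      intro j
      rw [Fin.prod_Iio_castSucc]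
      simp
    have h2 : ∏ i ∈ Iio (Fin.last N),
        (((((Fin.last N : Fin (N + 1)) : ℕ) : F) + 1) ^ 2 - ((((i : Fin (N + 1)) : ℕ) : F) + 1) ^ 2)
        = ∏ i ∈ range N, (((N : F) + 1) ^ 2 - ((i : F) + 1) ^ 2) := by
      rw [← Fin.prod_univ_eq_prod_range (fun i => ((N : F) + 1) ^ 2 - ((i : F) + 1) ^ 2) N]
      have : Iio (Fin.last N) = univ.map (Fin.castSuccEmb) := by
        ext x
        simp [Fin.exists_castSucc_eq]
      rw [this, prod_map]
      simp
    have h3 : (∏ i ∈ range N, (((N : F) + 1) ^ 2 - ((i : F) + 1) ^ 2)) * ((N + 1)! : F)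
        = (N ! : F) * ((2 * N + 1)! : F) := by
      have h4 : ∏ i ∈ range N, (((N : F) + 1) ^ 2 - ((i : F) + 1) ^ 2)
          = (∏ i ∈ range N, ((N - i : ℕ) : F)) * ∏ i ∈ range N, ((N + 1 + (i + 1) : ℕ) : F) := by
        rw [← prod_mul_distrib]
        refine prod_congr rfl fun i hi => ?_
        rw [mem_range] at hi
        rw [Nat.cast_sub hi.le]
        push_cast
        ring
      have h5 : ∏ i ∈ range N, ((N - i : ℕ) : F) = (N ! : F) := by
        rw [← prod_range_add_one_eq_factorial, ← prod_range_reflect]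
        push_cast
        refine prod_congr rfl fun i hi => ?_
        rw [mem_range] at hi
        rw [show N - (N - 1 - i) = i + 1 by omega]
        push_cast
        ring
      have h6 : (∏ i ∈ range N, ((N + 1 + (i + 1) : ℕ) : F)) * ((N + 1)! : F)
          = ((2 * N + 1)! : F) := by
        have : ∀ M : ℕ, (∏ i ∈ range M, (N + 1 + (i + 1))) * (N + 1)! = (N + 1 + M)! := by
          intro M
          induction M with
          | zero => simp
          | succ M ihM =>
            rw [prod_range_succ, mul_right_comm, ihM, show N + 1 + (M + 1) = (N + 1 + M) + 1 by ring,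
              Nat.factorial_succ (N + 1 + M)]
            ring
        have h7 := this N
        rw [show N + 1 + N = 2 * N + 1 by ring] at h7
        rw [← h7]
        push_cast
        ring
      rw [h4, h5, mul_assoc, h6]
    rw [prod_congr rfl fun j _ => h1 j, h2]
    rw [mul_assoc, h3]
    ring

lemma superfact (h : ℕ) : (∏ i ∈ range (2 * h), (i)!) * (2 ^ h * h !)
    = (∏ t ∈ range h, (2 * t)!) ^ 2 * (2 * h)! := by
  induction h with
  | zero => simp
  | succ h ih =>
    rw [show 2 * (h + 1) = 2 * h + 1 + 1 by ring, prod_range_succ, prod_range_succ,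
      prod_range_succ _ h, Nat.factorial_succ h, Nat.factorial_succ (2 * h + 1),
      Nat.factorial_succ (2 * h)]
    calc (∏ i ∈ range (2 * h), i !) * (2 * h)! * ((2 * h + 1) * (2 * h)!)
          * (2 ^ (h + 1) * ((h + 1) * h !))
        = ((∏ i ∈ range (2 * h), i !) * (2 ^ h * h !)) * ((2 * h)! * ((2 * h + 1) * (2 * h)!)
          * (2 * (h + 1))) := by ring
      _ = _ := by
          rw [ih]
          ring

end Ring

section Prime

variable {p : ℕ} [Fact p.Prime]

lemma wilson_gen (m : ℕ) (hm : m + 1 ≤ p) :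
    ((m ! : ℕ) : ZMod p) * (((p - 1 - m)! : ℕ) : ZMod p) = (-1) ^ (m + 1) := by
  induction m with
  | zero => simp [ZMod.wilsons_lemma]
  | succ m ih =>
    have h1 := ih (by omega)
    obtain ⟨k, hk⟩ : ∃ k, p = m + 1 + 1 + k := ⟨p - (m + 1 + 1), by omega⟩
    have e1 : p - 1 - m = k + 1 := by omega
    have e2 : p - 1 - (m + 1) = k := by omega
    rw [e1] at h1
    rw [e2]
    have h2 : ((m : ZMod p) + 1) = - ((k : ZMod p) + 1) := by
      have h3 : ((m + 1 + 1 + k : ℕ) : ZMod p) = 0 := by
        rw [← hk]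
        exact ZMod.natCast_self p
      push_cast at h3
      linear_combination h3
    rw [Nat.factorial_succ m]
    rw [Nat.factorial_succ k] at h1
    push_cast at h1 ⊢
    rw [pow_succ, ← h1, h2]
    ring

end Prime

end Q238.SD
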