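import Pool.Agent.Q238.SD.Main

/-!
From `ZMod p` back to the integers.
-/

namespace Q238.SD

open Finset Matrix Nat

variable {p : ℕ} [hF : Fact p.Prime] {h : ℕ}

/-- The number of `k` with `0 < k < p/4` and `(k/p) = -1`. -/
def countN (p : ℕ) [Fact p.Prime] : ℕ :=
  ((range p).filter (fun k => 0 < k ∧ 4 * k < p ∧ legendreSym p k = -1)).card

lemma q_countN (hp : p = 4 * h + 1) : q p h ((h ! : ℕ) : ZMod p) = (-1) ^ countN p := by
  have h1 : q p h ((h ! : ℕ) : ZMod p) = ∏ k ∈ Ico 1 (h + 1), q p h (k : ZMod p) := by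
    rw [← prod_Ico_id_eq_factorial]
    push_cast
    unfold q
    rw [prod_pow]
  have h2 : ∀ k ∈ Ico 1 (h + 1), q p h (k : ZMod p)
      = if legendreSym p k = -1 then (-1 : ZMod p) else 1 := by
    intro k hk
    rw [mem_Ico] at hk
    have h3 := q_int hp (k : ℤ)
    rw [Int.cast_natCast] at h3
    rw [← h3]
    have h4 : ((k : ℤ) : ZMod p) ≠ 0 := by
      rw [Int.cast_natCast]
      exact nat_ne (by omega) (by omega)
    rcases legendreSym.eq_one_or_neg_one p h4 with h5 | h5
    · rw [h5, if_neg (by decide)]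
      simp
    · rw [h5, if_pos rfl]
      simp
  have h3 : (range p).filter (fun k => 0 < k ∧ 4 * k < p ∧ legendreSym p k = -1)
      = (Ico 1 (h + 1)).filter (fun k : ℕ => legendreSym p k = -1) := by
    ext k
    simp only [mem_filter, mem_range, mem_Ico]
    constructor
    · rintro ⟨a, b, c, d⟩
      exact ⟨⟨by omega, by omega⟩, d⟩
    · rintro ⟨⟨a, b⟩, d⟩
      exact ⟨by omega, by omega, by omega, d⟩
  rw [h1, prod_congr rfl h2, countN, h3, prod_ite]
  simp

lemma int_eq_of_cast {a b : ℤ} (hp : 5 ≤ p) (ha : a = 0 ∨ a = 1 ∨ a = -1)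
    (hb : b = 1 ∨ b = -1) (h : (a : ZMod p) = b) : a = b := by
  have h1 : ((a - b : ℤ) : ZMod p) = 0 := by
    push_cast
    rw [h, sub_self]
  rw [ZMod.intCast_zmod_eq_zero_iff_dvd] at h1
  have h2 : |a - b| < (p : ℤ) := by
    have : (5 : ℤ) ≤ p := by exact_mod_cast hp
    rcases ha with rfl | rfl | rfl <;> rcases hb with rfl | rfl <;> norm_num <;> omega
  have := Int.eq_zero_of_abs_lt_dvd h1 h2
  omega

lemma legendre_cases (s : ℤ) : legendreSym p s = 0 ∨ legendreSym p s = 1 ∨ legendreSym p s = -1 := by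
  by_cases h0 : (s : ZMod p) = 0
  · left
    exact (legendreSym.eq_zero_iff p s).mpr h0
  · right
    exact legendreSym.eq_one_or_neg_one p h0

lemma sgn_cases (n : ℕ) : ((-1 : ℤ) ^ n = 1) ∨ ((-1 : ℤ) ^ n = -1) := neg_one_pow_eq_or ℤ n

lemma legendre_three (hp4 : p % 4 = 1) : legendreSym 3 p = 1 ∨ legendreSym 3 p = -1 := by
  refine legendreSym.eq_one_or_neg_one 3 ?_
  rw [Int.cast_natCast]
  intro h0
  rw [ZMod.natCast_eq_zero_iff] at h0
  have := (Nat.prime_dvd_prime_iff_eq Nat.prime_three hF.out).mp h0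
  omega

instance fact_five : Fact (Nat.Prime 5) := ⟨Nat.prime_five⟩

lemma legendre_five (hp5 : p ≠ 5) : legendreSym 5 p = 1 ∨ legendreSym 5 p = -1 := by
  refine legendreSym.eq_one_or_neg_one 5 ?_
  rw [Int.cast_natCast]
  intro h0
  rw [ZMod.natCast_eq_zero_iff] at h0
  have := (Nat.prime_dvd_prime_iff_eq Nat.prime_five hF.out).mp h0
  omega

lemma p_form (hp4 : p % 4 = 1) : ∃ h, p = 4 * h + 1 ∧ 1 ≤ h := by
  refine ⟨p / 4, by omega, ?_⟩
  have : p ≠ 1 := hF.out.one_lt.ne'
  omega

theorem final_one (hp4 : p % 4 = 1) (s : ℤ) (hs : s ^ 2 = sqDet p 1 ((p - 1) / 2)) :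
    legendreSym p s = (-1) ^ countN p * legendreSym 3 p := by
  obtain ⟨h, hp, hh⟩ := p_form hp4
  rw [show (p - 1) / 2 = 2 * h by omega] at hs
  have h1 := symb_one hp hs
  rw [q_countN hp] at h1
  have h2 : q p h 3 = ((legendreSym 3 p : ℤ) : ZMod p) := by
    have h3 := q_int hp 3
    rw [legendreSym.quadratic_reciprocity_one_mod_four hp4 (by decide)]
    push_cast at h3
    exact h3.symm
  rw [h2] at h1
  refine int_eq_of_cast (p := p) (by omega) (legendre_cases s) ?_ ?_
  · rcases sgn_cases (countN p) with e | e <;> rcases legendre_three hp4 with e' | e' <;>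
      rw [e, e'] <;> simp
  · rw [h1]
    push_cast
    ring

theorem final_three (hp4 : p % 4 = 1) (s : ℤ) (hs : s ^ 2 = sqDet p 3 ((p - 1) / 2)) :
    legendreSym p s = (-1) ^ countN p * jacobiSym p (4 + (-1) ^ ((p - 1) / 4) : ℤ).toNat := by
  obtain ⟨h, hp, hh⟩ := p_form hp4
  rw [show (p - 1) / 2 = 2 * h by omega] at hs
  rw [show (p - 1) / 4 = h by omega]
  rcases eq_or_lt_of_le hh with h1 | h1
  · subst h1
    have hp5 : p = 5 := by omega
    subst hp5
    have hD : sqDet 5 3 (2 * 1) = 729 := by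
      unfold sqDet
      rw [show 2 * 1 = 2 by rfl, det_fin_two]
      simp only [Matrix.of_apply, Fin.val_zero, Fin.val_one]
      norm_num
    rw [hD] at hs
    have hs2 : s = 27 ∨ s = -27 := by
      have : (s - 27) * (s + 27) = 0 := by linear_combination hs
      rcases mul_eq_zero.mp this with h2 | h2
      · left; linarith
      · right; linarith
    have hN : countN 5 = 0 := by
      unfold countN
      rw [Finset.card_eq_zero, filter_eq_empty_iff]
      intro k _ hk
      have hk1 : k = 1 := by omega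
      subst hk1
      have := hk.2.2
      norm_num at this
    rw [hN]
    have hj : jacobiSym (5 : ℕ) ((4 + (-1) ^ 1 : ℤ).toNat) = -1 := by
      rw [show (4 + (-1) ^ 1 : ℤ).toNat = 3 by rfl]
      norm_num
    rw [hj]
    rcases hs2 with rfl | rfl <;> norm_num [jacobiSym.legendreSym.to_jacobiSym]
  · have h2 := symb_three hp h1 hs
    rw [q_countN hp] at h2
    have h3 : q p h 3 = ((legendreSym 3 p : ℤ) : ZMod p) := by
      have h3 := q_int hp 3
      rw [legendreSym.quadratic_reciprocity_one_mod_four hp4 (by decide)]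
      push_cast at h3
      exact h3.symm
    have h5 : q p h 5 = ((legendreSym 5 p : ℤ) : ZMod p) := by
      have h3 := q_int hp 5
      rw [legendreSym.quadratic_reciprocity_one_mod_four hp4 (by decide)]
      push_cast at h3
      exact h3.symm
    have n3 : (3 : ZMod p) ≠ 0 := by
      have := nat_ne (p := p) (m := 3) (by omega) (by omega)
      exact_mod_cast this
    have n5 : (5 : ZMod p) ≠ 0 := by
      have := nat_ne (p := p) (m := 5) (by omega) (by omega)
      exact_mod_cast this
    have s3 := q_sq hp n3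
    have s5 := q_sq hp n5
    have h15 : q p h 15 = q p h 3 * q p h 5 := by
      rw [← q_mul]
      congr 1
      norm_num
    have h15s : q p h 15 ^ 2 = 1 := by
      rw [h15]
      linear_combination (q p h 3 ^ 2) * s5 + s3
    rcases Nat.even_or_odd h with he | he
    · obtain ⟨k, hk⟩ := he
      have e1 : ((4 : ℤ) + (-1) ^ h).toNat = 5 := by
        rw [Even.neg_one_pow ⟨k, hk⟩]
        rfl
      rw [e1, ← jacobiSym.legendreSym.to_jacobiSym]
      refine int_eq_of_cast (p := p) (by omega) (legendre_cases s) ?_ ?_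
      · rcases sgn_cases (countN p) with e | e <;>
          rcases legendre_five (p := p) (by omega) with e' | e' <;> rw [e, e'] <;> simp
      · rw [h2, pow_succ, show h = 2 * k by omega, pow_mul]
        rw [show 2 * k = h by omega, h15s, one_pow, one_mul, h15]
        push_cast
        rw [← h5]
        linear_combination (q p h 5 * (-1) ^ countN p) * s3
    · obtain ⟨k, hk⟩ := he
      have e1 : ((4 : ℤ) + (-1) ^ h).toNat = 3 := by
        rw [Odd.neg_one_pow ⟨k, hk⟩]
        rfl
      rw [e1, ← jacobiSym.legendreSym.to_jacobiSym]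
      refine int_eq_of_cast (p := p) (by omega) (legendre_cases s) ?_ ?_
      · rcases sgn_cases (countN p) with e | e <;> rcases legendre_three hp4 with e' | e' <;>
          rw [e, e'] <;> simp
      · rw [h2, show h + 1 = 2 * (k + 1) by omega, pow_mul, h15s, one_pow, one_mul, h3]
        push_cast
        ring

end Q238.SD
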