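import Pool.Agent.Q238.SD.Symb

/-!
The two evaluations.
-/

namespace Q238.SD

open Finset Matrix Nat

variable {p : ℕ} [hF : Fact p.Prime] {h : ℕ}

/-- A bijection from its two halves. -/
noncomputable def mkEquiv (h : ℕ) (g₀ g₁ : ℕ → ℕ) (h0 : ∀ t < h, g₀ t < 2 * h)
    (h1 : ∀ t < h, g₁ t < 2 * h) (i0 : ∀ s < h, ∀ t < h, g₀ s = g₀ t → s = t)
    (i1 : ∀ s < h, ∀ t < h, g₁ s = g₁ t → s = t) (i2 : ∀ s < h, ∀ t < h, g₀ s ≠ g₁ t) :
    Fin 2 × Fin h ≃ Fin (2 * h) :=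
  Equiv.ofBijective (fun z => if z.1 = 0 then ⟨g₀ z.2, h0 _ z.2.isLt⟩ else ⟨g₁ z.2, h1 _ z.2.isLt⟩)
    ((Fintype.bijective_iff_injective_and_card _).mpr ⟨by
      rintro ⟨c, s⟩ ⟨d, t⟩ hst
      fin_cases c <;> fin_cases d
      · have := i0 s s.isLt t t.isLt (by simpa using hst)
        rw [Fin.ext this]
      · exact absurd (by simpa using hst) (i2 s s.isLt t t.isLt)
      · exact absurd (by simpa using hst.symm) (i2 t t.isLt s s.isLt)
      · have := i1 s s.isLt t t.isLt (by simpa using hst)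
        rw [Fin.ext this], by simp⟩)

/-- Squares of `1, …, 2h` are `2h`-th roots of unity. -/
lemma root_pow (hp : p = 4 * h + 1) (j : Fin (2 * h)) :
    ((((j : ℕ) : ZMod p) + 1) ^ 2) ^ (2 * h) = 1 := by
  have h1 : ((j : ℕ) : ZMod p) + 1 ≠ 0 := by
    have := j.isLt
    have h2 := nat_ne (p := p) (m := (j : ℕ) + 1) (by omega) (by omega)
    push_cast at h2
    exact h2
  have := q_sq' (h := h) hp h1
  rw [← q_pow] at this
  exact this

/-- The determinant modulo `p`. -/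
lemma cast_sqDet (hp : p = 4 * h + 1) (m : ℕ) :
    ((sqDet p m (2 * h) : ℤ) : ZMod p) = (Matrix.of fun j k : Fin (2 * h) =>
      ((((j : ℕ) : ZMod p) + 1) ^ 2 - (((k : ℕ) : ZMod p) + 1) ^ 2) ^ (2 * h + m)).det := by
  unfold sqDet
  have := RingHom.map_det (Int.castRingHom (ZMod p)) (Matrix.of fun j k : Fin (2 * h) =>
    ((((j : ℕ) : ℤ) + 1) ^ 2 - (((k : ℕ) : ℤ) + 1) ^ 2) ^ m
      * jacobiSym ((((j : ℕ) : ℤ) + 1) ^ 2 - (((k : ℕ) : ℤ) + 1) ^ 2) p)
  rw [eq_intCast] at this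
  rw [this]
  congr 1
  ext j k
  simp only [RingHom.mapMatrix_apply, Matrix.map_apply, Matrix.of_apply, map_mul, map_pow]
  rw [← jacobiSym.legendreSym.to_jacobiSym, eq_intCast, eq_intCast, q_int hp]
  unfold q
  push_cast
  rw [pow_add]
  ring

lemma sqrt_symbol (hp : p = 4 * h + 1) {s : ℤ} {D : ℤ} (hs : s ^ 2 = D) {u : ZMod p}
    (hu : (D : ZMod p) = u ^ 2) : ((legendreSym p s : ℤ) : ZMod p) = q p h u := by
  rw [q_int hp]
  have h1 : (s : ZMod p) ^ 2 = u ^ 2 := by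
    rw [← hu, ← hs]
    push_cast
    rfl
  unfold q
  rw [pow_mul, pow_mul, h1]

lemma q_neg (a : ZMod p) : q p h (-a) = q p h a := by
  unfold q
  rw [neg_pow, pow_mul]
  simp

lemma q_neg_one_pow (m : ℕ) : q p h ((-1) ^ m) = 1 := by
  rw [q_pow, q_neg, q_one, one_pow]

lemma q_choose_prod (hp : p = 4 * h + 1) {n k : ℕ} (hk : k ≤ n + 1) (hn : 2 * n + 2 - k = 2 * h)
    (hk2 : k ≤ 2 * h) :
    q p h (∏ i ∈ Ico k (n + 1), ((2 * n + 1).choose i : ZMod p)) * q p h ((h ! : ℕ) : ZMod p)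
      = q p h (((2 * n + 1)! : ℕ) : ZMod p) ^ (n + 1 - k)
        * q p h (∏ i ∈ range k, ((i ! : ℕ) : ZMod p)) := by
  have h1 := congrArg (Nat.cast (R := ZMod p)) (prod_choose n k hk)
  rw [hn] at h1
  push_cast at h1
  have h2 := congrArg (q p h) h1
  rw [q_mul, q_pow] at h2
  rw [← h2, ← q_superfact hp, ← prod_range_mul_prod_Ico _ hk2, q_mul, mul_comm (q p h (∏ i ∈ range k,
    ((i ! : ℕ) : ZMod p))), mul_assoc]

/-- The value for `m = 1`. -/
theorem symb_one (hp : p = 4 * h + 1) {s : ℤ} (hs : s ^ 2 = sqDet p 1 (2 * h)) :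
    ((legendreSym p s : ℤ) : ZMod p) = q p h 3 * q p h ((h ! : ℕ) : ZMod p) := by
  have hh : 1 ≤ h := by
    rcases Nat.eq_zero_or_pos h with h0 | h0
    · subst h0
      exact absurd hF.out (by rw [hp]; decide)
    · exact h0
  obtain ⟨k, rfl⟩ : ∃ k, h = k + 1 := ⟨h - 1, by omega⟩
  set e := mkEquiv (k + 1) (fun t => if t = 0 then 0 else t + 1)
    (fun t => if t = 0 then 1 else 2 * (k + 1) - t)
    (by intro t ht; split_ifs <;> omega)
    (by intro t ht; split_ifs <;> omega)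
    (by intro s hs t ht heq; split_ifs at heq <;> omega)
    (by intro s hs t ht heq; split_ifs at heq <;> omega)
    (by intro s hs t ht; split_ifs <;> omega) with he
  have e0 : ∀ t : Fin (k + 1), (e (0, t) : ℕ) = if (t : ℕ) = 0 then 0 else (t : ℕ) + 1 := by
    intro t
    simp [he, mkEquiv]
  have e1 : ∀ t : Fin (k + 1), (e (1, t) : ℕ)
      = if (t : ℕ) = 0 then 1 else 2 * (k + 1) - (t : ℕ) := by
    intro t
    simp [he, mkEquiv]
  set a : Fin (k + 1) → ZMod p := Fin.cases (-(2 * (k + 1) + 2 : ZMod p))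
    (fun t : Fin k => ((2 * (k + 1) + 1).choose (t + 2) : ZMod p) * (-1) ^ ((t : ℕ) + 3)) with ha
  have hdet := det_paired e a (fun j => (((j : ℕ) : ZMod p) + 1) ^ 2)
    (Matrix.of fun j k' : Fin (2 * (k + 1)) =>
      ((((j : ℕ) : ZMod p) + 1) ^ 2 - (((k' : ℕ) : ZMod p) + 1) ^ 2) ^ (2 * (k + 1) + 1)) (by
    intro j j'
    rw [Matrix.of_apply]
    have hx := root_pow hp j
    have hy := root_pow hp j'
    set x := (((j : ℕ) : ZMod p) + 1) ^ 2 with hxd
    set y := (((j' : ℕ) : ZMod p) + 1) ^ 2 with hyd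
    rw [odd_power, Fin.sum_univ_succ, sum_range_succ', sum_range_succ',
      ← Fin.sum_univ_eq_sum_range (fun i => ((2 * (k + 1) + 1).choose (i + 1 + 1) : ZMod p)
        * (-1) ^ (i + 1 + 1 + 1) * (x ^ (i + 1 + 1) * y ^ (2 * (k + 1) + 1 - (i + 1 + 1))
          - x ^ (2 * (k + 1) + 1 - (i + 1 + 1)) * y ^ (i + 1 + 1))) k]
    have hx1 : x ^ (2 * (k + 1) + 1) = x := by rw [pow_succ, hx, one_mul]
    have hy1 : y ^ (2 * (k + 1) + 1) = y := by rw [pow_succ, hy, one_mul]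
    rw [add_comm]
    have hterm : ∀ t : Fin k, ((2 * (k + 1) + 1).choose ((t : ℕ) + 1 + 1) : ZMod p)
        * (-1) ^ ((t : ℕ) + 1 + 1 + 1) * (x ^ ((t : ℕ) + 1 + 1) * y ^ (2 * (k + 1) + 1 - ((t : ℕ) + 1 + 1))
          - x ^ (2 * (k + 1) + 1 - ((t : ℕ) + 1 + 1)) * y ^ ((t : ℕ) + 1 + 1))
        = a t.succ * (x ^ (e (0, t.succ) : ℕ) * y ^ (e (1, t.succ) : ℕ)
          - x ^ (e (1, t.succ) : ℕ) * y ^ (e (0, t.succ) : ℕ)) := by
      intro t
      rw [e0, e1]
      simp only [Fin.val_succ, ha, Fin.cases_succ]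
      rw [if_neg (by omega), if_neg (by omega)]
      rw [show 2 * (k + 1) + 1 - ((t : ℕ) + 1 + 1) = 2 * (k + 1) - ((t : ℕ) + 1) by omega]
    rw [sum_congr rfl fun t _ => hterm t, ← add_assoc, add_comm _ (∑ t : Fin k, _), add_comm]
    rw [e0, e1]
    simp only [Fin.val_zero, if_true, ha, Fin.cases_zero, zero_add, Nat.choose_zero_right,
      Nat.choose_one_right, Nat.sub_zero, pow_zero, pow_one, one_mul, mul_one]
    rw [show 2 * (k + 1) + 1 - 1 = 2 * (k + 1) by omega, hx1, hy1, hx, hy]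
    push_cast
    ring)
  rw [← cast_sqDet hp] at hdet
  rw [sqrt_symbol hp hs hdet, q_mul, q_vand hp]
  have hprod : ∏ t, a t = -(2 * (k + 1) + 2 : ZMod p) * ((-1) ^ (∑ t ∈ range k, (t + 3))
      * ∏ i ∈ Ico 2 (k + 1 + 1), ((2 * (k + 1) + 1).choose i : ZMod p)) := by
    rw [Fin.prod_univ_succ]
    simp only [ha, Fin.cases_zero, Fin.cases_succ]
    rw [prod_mul_distrib, prod_Ico_eq_prod_range, ← prod_pow_eq_pow_sum,
      ← Fin.prod_univ_eq_prod_range (fun i => (-1 : ZMod p) ^ (i + 3)) k,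
      show k + 1 + 1 - 2 = k by omega,
      ← Fin.prod_univ_eq_prod_range (fun i => ((2 * (k + 1) + 1).choose (2 + i) : ZMod p)) k]
    have : ∀ t : Fin k, ((2 * (k + 1) + 1).choose ((t : ℕ) + 2) : ZMod p)
        = ((2 * (k + 1) + 1).choose (2 + (t : ℕ)) : ZMod p) := fun t => by
          rw [add_comm (t : ℕ) 2]
    rw [prod_congr rfl fun t _ => this t]
    ring
  rw [hprod, q_mul, q_mul, q_neg, q_neg_one_pow, one_mul]
  have hc := q_choose_prod hp (n := k + 1) (k := 2) (by omega) (by omega) (by omega)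
  have h2 := q_two hp
  have hhf : q p (k + 1) (((k + 1)! : ℕ) : ZMod p) ^ 2 = 1 := q_sq' hp (fact_ne (by omega))
  have hp0 : (4 * ((k : ZMod p) + 1) + 1) = 0 := by
    have h3 : ((4 * (k + 1) + 1 : ℕ) : ZMod p) = 0 := by
      rw [← hp]
      exact ZMod.natCast_self p
    push_cast at h3
    exact h3
  have h3 : q p (k + 1) 2 * q p (k + 1) (2 * (k + 1) + 2) = q p (k + 1) 3 := by
    rw [← q_mul]
    congr 1
    linear_combination hp0
  have h4 : q p (k + 1) 2 * q p (k + 1) (2 * (k + 1) + 1) = 1 := by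
    rw [← q_mul]
    have : (2 : ZMod p) * (2 * (k + 1) + 1) = 1 := by linear_combination hp0
    rw [this, q_one]
  have h5 : q p (k + 1) (((2 * (k + 1) + 1)! : ℕ) : ZMod p) = 1 := by
    rw [Nat.factorial_succ]
    push_cast
    rw [q_mul]
    have := q_fact hp
    rw [this, ← h2, mul_comm]
    exact h4
  rw [h5, one_pow, one_mul] at hc
  have h6 : ∏ i ∈ range 2, ((i ! : ℕ) : ZMod p) = 1 := by
    simp [prod_range_succ]
  rw [h6, q_one] at hc
  rw [← h2, ← mul_assoc, h3]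
  congr 1
  linear_combination (q p (k + 1) (((k + 1)! : ℕ) : ZMod p)) * hc
    - q p (k + 1) (∏ i ∈ Ico 2 (k + 1 + 1), ((2 * (k + 1) + 1).choose i : ZMod p)) * hhf

/-- The value for `m = 3`. -/
theorem symb_three (hp : p = 4 * h + 1) (hh : 2 ≤ h) {s : ℤ} (hs : s ^ 2 = sqDet p 3 (2 * h)) :
    ((legendreSym p s : ℤ) : ZMod p)
      = q p h 15 ^ (h + 1) * q p h 3 * q p h ((h ! : ℕ) : ZMod p) := by
  have h9 : h ≠ 2 := by
    rintro rfl
    exact absurd hF.out (by rw [hp]; decide)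
  obtain ⟨k, rfl⟩ : ∃ k, h = k + 2 := ⟨h - 2, by omega⟩
  set e := mkEquiv (k + 2) (fun t => if t = 0 then 0 else if t = 1 then 1 else t + 2)
    (fun t => if t = 0 then 3 else if t = 1 then 2 else 2 * (k + 2) + 1 - t)
    (by intro t ht; split_ifs <;> omega)
    (by intro t ht; split_ifs <;> omega)
    (by intro s hs t ht heq; split_ifs at heq <;> omega)
    (by intro s hs t ht heq; split_ifs at heq <;> omega)
    (by intro s hs t ht; split_ifs <;> omega) with he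
  have e0 : ∀ t : Fin (k + 2), (e (0, t) : ℕ) = if (t : ℕ) = 0 then 0 else
      if (t : ℕ) = 1 then 1 else (t : ℕ) + 2 := by
    intro t
    simp [he, mkEquiv]
  have e1 : ∀ t : Fin (k + 2), (e (1, t) : ℕ)
      = if (t : ℕ) = 0 then 3 else if (t : ℕ) = 1 then 2 else 2 * (k + 2) + 1 - (t : ℕ) := by
    intro t
    simp [he, mkEquiv]
  set a : Fin (k + 2) → ZMod p :=
    Fin.cases (-(1 + ((2 * (k + 2 + 1) + 1).choose 3 : ZMod p)))
      (Fin.cases ((2 * (k + 3) + 1 : ZMod p) + ((2 * (k + 2 + 1) + 1).choose 2 : ZMod p))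
      (fun t : Fin k => ((2 * (k + 2 + 1) + 1).choose (t + 4) : ZMod p) * (-1) ^ ((t : ℕ) + 5)))
    with ha
  have hdet := det_paired e a (fun j => (((j : ℕ) : ZMod p) + 1) ^ 2)
    (Matrix.of fun j k' : Fin (2 * (k + 2)) =>
      ((((j : ℕ) : ZMod p) + 1) ^ 2 - (((k' : ℕ) : ZMod p) + 1) ^ 2) ^ (2 * (k + 2) + 3)) (by
    intro j j'
    rw [Matrix.of_apply]
    have hx := root_pow hp j
    have hy := root_pow hp j'
    set x := (((j : ℕ) : ZMod p) + 1) ^ 2 with hxd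
    set y := (((j' : ℕ) : ZMod p) + 1) ^ 2 with hyd
    rw [show 2 * (k + 2) + 3 = 2 * (k + 2 + 1) + 1 by ring]
    rw [odd_power, Fin.sum_univ_succ, Fin.sum_univ_succ, sum_range_succ', sum_range_succ',
      sum_range_succ', sum_range_succ',
      ← Fin.sum_univ_eq_sum_range (fun i => ((2 * (k + 2 + 1) + 1).choose (i + 1 + 1 + 1 + 1) : ZMod p)
        * (-1) ^ (i + 1 + 1 + 1 + 1 + 1) * (x ^ (i + 1 + 1 + 1 + 1)
          * y ^ (2 * (k + 2 + 1) + 1 - (i + 1 + 1 + 1 + 1))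
          - x ^ (2 * (k + 2 + 1) + 1 - (i + 1 + 1 + 1 + 1)) * y ^ (i + 1 + 1 + 1 + 1))) k]
    have hx1 : x ^ (2 * (k + 2) + 1) = x := by rw [pow_succ, hx, one_mul]
    have hy1 : y ^ (2 * (k + 2) + 1) = y := by rw [pow_succ, hy, one_mul]
    have hx2 : x ^ (2 * (k + 2) + 2) = x ^ 2 := by rw [pow_add, hx, one_mul]
    have hy2 : y ^ (2 * (k + 2) + 2) = y ^ 2 := by rw [pow_add, hy, one_mul]
    have hx3 : x ^ (2 * (k + 2) + 3) = x ^ 3 := by rw [pow_add, hx, one_mul]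
    have hy3 : y ^ (2 * (k + 2) + 3) = y ^ 3 := by rw [pow_add, hy, one_mul]
    have hterm : ∀ t : Fin k, ((2 * (k + 2 + 1) + 1).choose ((t : ℕ) + 1 + 1 + 1 + 1) : ZMod p)
        * (-1) ^ ((t : ℕ) + 1 + 1 + 1 + 1 + 1) * (x ^ ((t : ℕ) + 1 + 1 + 1 + 1)
          * y ^ (2 * (k + 2 + 1) + 1 - ((t : ℕ) + 1 + 1 + 1 + 1))
          - x ^ (2 * (k + 2 + 1) + 1 - ((t : ℕ) + 1 + 1 + 1 + 1)) * y ^ ((t : ℕ) + 1 + 1 + 1 + 1))
        = a t.succ.succ * (x ^ (e (0, t.succ.succ) : ℕ) * y ^ (e (1, t.succ.succ) : ℕ)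
          - x ^ (e (1, t.succ.succ) : ℕ) * y ^ (e (0, t.succ.succ) : ℕ)) := by
      intro t
      rw [e0, e1]
      simp only [Fin.val_succ, ha, Fin.cases_succ]
      rw [if_neg (by omega), if_neg (by omega), if_neg (by omega), if_neg (by omega)]
      rw [show 2 * (k + 2 + 1) + 1 - ((t : ℕ) + 1 + 1 + 1 + 1)
        = 2 * (k + 2) + 1 - ((t : ℕ) + 1 + 1) by omega]
    rw [sum_congr rfl fun t _ => hterm t]
    have z0 : (e (0, 0) : ℕ) = 0 := by rw [e0]; rfl
    have z1 : (e (1, 0) : ℕ) = 3 := by rw [e1]; rfl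
    have z2 : (e (0, Fin.succ 0) : ℕ) = 1 := by rw [e0]; rfl
    have z3 : (e (1, Fin.succ 0) : ℕ) = 2 := by rw [e1]; rfl
    rw [z0, z1, z2, z3]
    simp only [ha, Fin.cases_zero, Fin.cases_succ, zero_add, Nat.choose_zero_right,
      Nat.choose_one_right, Nat.sub_zero, pow_zero, pow_one, one_mul, mul_one]
    rw [show 2 * (k + 2 + 1) + 1 - 1 = 2 * (k + 2) + 2 by omega,
      show 2 * (k + 2 + 1) + 1 - (1 + 1) = 2 * (k + 2) + 1 by omega,
      show 2 * (k + 2 + 1) + 1 - (1 + 1 + 1) = 2 * (k + 2) by omega,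
      show 2 * (k + 2 + 1) + 1 = 2 * (k + 2) + 3 by omega, hx1, hy1, hx, hy, hx2, hy2, hx3, hy3]
    push_cast
    ring)
  rw [← cast_sqDet hp] at hdet
  rw [sqrt_symbol hp hs hdet, q_mul, q_vand hp]
  have hprod : ∏ t, a t = -(1 + ((2 * (k + 2 + 1) + 1).choose 3 : ZMod p))
      * ((2 * (k + 3) + 1 : ZMod p) + ((2 * (k + 2 + 1) + 1).choose 2 : ZMod p))
      * ((-1) ^ (∑ t ∈ range k, (t + 5))
      * ∏ i ∈ Ico 4 (k + 2 + 1 + 1), ((2 * (k + 2 + 1) + 1).choose i : ZMod p)) := by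
    rw [Fin.prod_univ_succ, Fin.prod_univ_succ]
    simp only [ha, Fin.cases_zero, Fin.cases_succ]
    rw [prod_mul_distrib, prod_Ico_eq_prod_range, ← prod_pow_eq_pow_sum,
      ← Fin.prod_univ_eq_prod_range (fun i => (-1 : ZMod p) ^ (i + 5)) k,
      show k + 2 + 1 + 1 - 4 = k by omega,
      ← Fin.prod_univ_eq_prod_range (fun i => ((2 * (k + 2 + 1) + 1).choose (4 + i) : ZMod p)) k]
    have : ∀ t : Fin k, ((2 * (k + 2 + 1) + 1).choose ((t : ℕ) + 4) : ZMod p)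
        = ((2 * (k + 2 + 1) + 1).choose (4 + (t : ℕ)) : ZMod p) := fun t => by
          rw [add_comm (t : ℕ) 4]
    rw [prod_congr rfl fun t _ => this t]
    ring
  rw [hprod, q_mul, q_mul, q_mul, q_neg, q_neg_one_pow, one_mul]
  have hc := q_choose_prod hp (n := k + 2 + 1) (k := 4) (by omega) (by omega) (by omega)
  have h2 := q_two hp
  have hhf : q p (k + 2) (((k + 2)! : ℕ) : ZMod p) ^ 2 = 1 := q_sq' hp (fact_ne (by omega))
  have hp0 : (4 * ((k : ZMod p) + 2) + 1) = 0 := by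
    have h3 : ((4 * (k + 2) + 1 : ℕ) : ZMod p) = 0 := by
      rw [← hp]
      exact ZMod.natCast_self p
    push_cast at h3
    exact h3
  have hk1 : 1 ≤ k := by omega
  have n2 : (2 : ZMod p) ≠ 0 := by
    have := nat_ne (p := p) (m := 2) (by omega) (by omega)
    exact_mod_cast this
  have n3 : (3 : ZMod p) ≠ 0 := by
    have := nat_ne (p := p) (m := 3) (by omega) (by omega)
    exact_mod_cast this
  have n5 : (5 : ZMod p) ≠ 0 := by
    have := nat_ne (p := p) (m := 5) (by omega) (by omega)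
    exact_mod_cast this
  have n7 : (7 : ZMod p) ≠ 0 := by
    have := nat_ne (p := p) (m := 7) (by omega) (by omega)
    exact_mod_cast this
  have s2 := q_sq (h := k + 2) hp n2
  have s3 := q_sq (h := k + 2) hp n3
  have s5 := q_sq (h := k + 2) hp n5
  have s7 := q_sq (h := k + 2) hp n7
  have c3 : (6 : ZMod p) * ((2 * (k + 2 + 1) + 1).choose 3 : ZMod p)
      = (2 * k + 7) * (2 * k + 6) * (2 * k + 5) := by
    have h3 := Nat.descFactorial_eq_factorial_mul_choose (2 * (k + 2 + 1) + 1) 3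
    have h4 : (2 * (k + 2 + 1) + 1).descFactorial 3 = (2 * k + 7) * (2 * k + 6) * (2 * k + 5) := by
      rw [Nat.descFactorial_succ, Nat.descFactorial_succ, Nat.descFactorial_succ,
        Nat.descFactorial_zero]
      rw [show 2 * (k + 2 + 1) + 1 - 2 = 2 * k + 5 by omega,
        show 2 * (k + 2 + 1) + 1 - 1 = 2 * k + 6 by omega,
        show 2 * (k + 2 + 1) + 1 - 0 = 2 * k + 7 by omega]
      ring
    rw [h4] at h3
    have h5 := congrArg (Nat.cast (R := ZMod p)) h3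
    rw [show (3)! = 6 by rfl] at h5
    push_cast at h5
    exact h5.symm
  have c2 : (2 : ZMod p) * ((2 * (k + 2 + 1) + 1).choose 2 : ZMod p)
      = (2 * k + 7) * (2 * k + 6) := by
    have h3 := Nat.descFactorial_eq_factorial_mul_choose (2 * (k + 2 + 1) + 1) 2
    have h4 : (2 * (k + 2 + 1) + 1).descFactorial 2 = (2 * k + 7) * (2 * k + 6) := by
      rw [Nat.descFactorial_succ, Nat.descFactorial_succ, Nat.descFactorial_zero]
      rw [show 2 * (k + 2 + 1) + 1 - 1 = 2 * k + 6 by omega,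
        show 2 * (k + 2 + 1) + 1 - 0 = 2 * k + 7 by omega]
      ring
    rw [h4] at h3
    have h5 := congrArg (Nat.cast (R := ZMod p)) h3
    rw [show (2)! = 2 by rfl] at h5
    push_cast at h5
    exact h5.symm
  have v1 : q p (k + 2) (1 + ((2 * (k + 2 + 1) + 1).choose 3 : ZMod p))
      = q p (k + 2) 3 * q p (k + 2) 7 := by
    have h3 : (3 : ZMod p) * (2 ^ 4 * (1 + ((2 * (k + 2 + 1) + 1).choose 3 : ZMod p)))
        = 3 * (3 * 7) := by
      linear_combination 8 * c3 + (16 * (k : ZMod p) ^ 2 + 108 * k + 185) * hp0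
    have h4 := mul_left_cancel₀ n3 h3
    have h5 := congrArg (q p (k + 2)) h4
    rw [q_mul, q_mul, q_pow] at h5
    have h6 : q p (k + 2) 2 ^ 4 = 1 := by
      linear_combination (q p (k + 2) 2 ^ 2 + 1) * s2
    rw [h6, one_mul] at h5
    exact h5
  have v2 : q p (k + 2) 2 * q p (k + 2) ((2 * (k + 3) + 1 : ZMod p)
      + ((2 * (k + 2 + 1) + 1).choose 2 : ZMod p)) = q p (k + 2) 5 * q p (k + 2) 7 := by
    have h3 : (2 : ZMod p) ^ 3 * ((2 * (k + 3) + 1 : ZMod p)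
        + ((2 * (k + 2 + 1) + 1).choose 2 : ZMod p)) = 5 * 7 := by
      linear_combination 4 * c2 + (4 * (k : ZMod p) + 21) * hp0
    have h5 := congrArg (q p (k + 2)) h3
    rw [q_mul, q_mul, q_pow] at h5
    have h6 : q p (k + 2) 2 ^ 3 = q p (k + 2) 2 := by
      linear_combination (q p (k + 2) 2) * s2
    rw [h6] at h5
    exact h5
  have v3 : q p (k + 2) (((2 * (k + 2 + 1) + 1)! : ℕ) : ZMod p)
      = q p (k + 2) 3 * q p (k + 2) 5 := by
    have h3 : (2 : ZMod p) ^ 3 * (((2 * (k + 2 + 1) + 1)! : ℕ) : ZMod p)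
        = 3 * 5 * (((2 * (k + 2))! : ℕ) : ZMod p) := by
      rw [show 2 * (k + 2 + 1) + 1 = 2 * (k + 2) + 1 + 1 + 1 by ring, Nat.factorial_succ,
        Nat.factorial_succ, Nat.factorial_succ]
      push_cast
      linear_combination ((16 * (k : ZMod p) ^ 2 + 108 * k + 185)
        * (((2 * (k + 2))! : ℕ) : ZMod p)) * hp0
    have h5 := congrArg (q p (k + 2)) h3
    rw [q_mul, q_mul, q_mul, q_pow, q_fact hp, ← h2] at h5
    linear_combination (q p (k + 2) 2) * h5 + (q p (k + 2) 3 * q p (k + 2) 5 - q p (k + 2)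
      (((2 * (k + 2 + 1) + 1)! : ℕ) : ZMod p) * (q p (k + 2) 2 ^ 2 + 1)) * s2
  have v4 : q p (k + 2) (∏ i ∈ range 4, ((i ! : ℕ) : ZMod p)) = q p (k + 2) 3 := by
    have h3 : ∏ i ∈ range 4, ((i ! : ℕ) : ZMod p) = 2 * 2 * 3 := by
      simp only [prod_range_succ, prod_range_zero, Nat.factorial]
      push_cast
      ring
    rw [h3, q_mul, q_mul, s2, one_mul]
  rw [v3, v4, show k + 2 + 1 + 1 - 4 = k by omega] at hc
  have h15 : q p (k + 2) 15 = q p (k + 2) 3 * q p (k + 2) 5 := by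
    rw [← q_mul]
    congr 1
    norm_num
  rw [v1, ← h2, h15]
  set X := q p (k + 2) (∏ i ∈ Ico 4 (k + 2 + 1 + 1), ((2 * (k + 2 + 1) + 1).choose i : ZMod p))
    with hX
  set Y := q p (k + 2) ((2 * (k + 3) + 1 : ZMod p) + ((2 * (k + 2 + 1) + 1).choose 2 : ZMod p))
    with hY
  set H := q p (k + 2) (((k + 2)! : ℕ) : ZMod p) with hH
  have hX2 : X = (q p (k + 2) 3 * q p (k + 2) 5) ^ k * q p (k + 2) 3 * H := by
    linear_combination H * hc - X * hhf
  calc q p (k + 2) 2 * (q p (k + 2) 3 * q p (k + 2) 7 * Y * X)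
      = q p (k + 2) 3 * q p (k + 2) 7 * (q p (k + 2) 2 * Y) * X := by ring
    _ = q p (k + 2) 3 * q p (k + 2) 5 * (q p (k + 2) 7 * q p (k + 2) 7) * X := by
        rw [v2]
        ring
    _ = (q p (k + 2) 3 * q p (k + 2) 5) ^ (k + 1) * q p (k + 2) 3 * H
        * ((q p (k + 2) 3 * q p (k + 2) 3) * (q p (k + 2) 5 * q p (k + 2) 5)) := by
        rw [s7, s3, s5, hX2]
        ring
    _ = (q p (k + 2) 3 * q p (k + 2) 5) ^ (k + 2 + 1) * q p (k + 2) 3 * H := by ring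

end Q238.SD
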