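import Pool.Agent.Q238.SD.Fact

/-!
Quadratic symbols of factorials for a prime `p = 4 h + 1`.
-/

namespace Q238.SD

open Finset Matrix Nat

variable {p : ℕ} [hF : Fact p.Prime] {h : ℕ}

/-- The quadratic symbol modulo `p = 4 h + 1`, with values in `ZMod p`. -/
def q (p h : ℕ) (a : ZMod p) : ZMod p := a ^ (2 * h)

lemma q_mul (a b : ZMod p) : q p h (a * b) = q p h a * q p h b := mul_pow _ _ _

lemma q_pow (a : ZMod p) (k : ℕ) : q p h (a ^ k) = q p h a ^ k := by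
  unfold q
  rw [← pow_mul, ← pow_mul, mul_comm]

lemma q_one : q p h 1 = 1 := one_pow _

lemma q_sq (hp : p = 4 * h + 1) {a : ZMod p} (ha : a ≠ 0) : q p h a * q p h a = 1 := by
  unfold q
  rw [← pow_add]
  have := ZMod.pow_card_sub_one_eq_one ha
  rwa [show p - 1 = 2 * h + 2 * h by omega] at this

lemma q_sq' (hp : p = 4 * h + 1) {a : ZMod p} (ha : a ≠ 0) : q p h a ^ 2 = 1 := by
  rw [sq]
  exact q_sq hp ha

lemma fact_ne {m : ℕ} (hm : m < p) : ((m ! : ℕ) : ZMod p) ≠ 0 := by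
  intro h0
  rw [ZMod.natCast_eq_zero_iff] at h0
  exact absurd ((Nat.Prime.dvd_factorial hF.out).mp h0) (not_le.mpr hm)

lemma nat_ne {m : ℕ} (h0 : 0 < m) (hm : m < p) : (m : ZMod p) ≠ 0 := by
  intro h1
  rw [ZMod.natCast_eq_zero_iff] at h1
  exact absurd (Nat.le_of_dvd h0 h1) (not_le.mpr hm)

lemma fact_sq (hp : p = 4 * h + 1) : (((2 * h)! : ℕ) : ZMod p) ^ 2 = -1 := by
  have := wilson_gen (p := p) (2 * h) (by omega)
  rw [show p - 1 - 2 * h = 2 * h by omega, pow_succ, pow_mul] at this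
  rw [sq, this]
  simp

lemma q_fact (hp : p = 4 * h + 1) : q p h ((2 * h)! : ℕ) = (-1) ^ h := by
  unfold q
  rw [pow_mul, fact_sq hp]

lemma sgn_sq (h : ℕ) : ((-1 : ZMod p) ^ h) * (-1) ^ h = 1 := by
  rw [← mul_pow]
  simp

lemma sgn_pow_self (h : ℕ) : ((-1 : ZMod p) ^ h) ^ h = (-1) ^ h := by
  rcases Nat.even_or_odd h with hh | hh
  · rw [hh.neg_one_pow, one_pow]
  · rw [hh.neg_one_pow, hh.neg_one_pow]

lemma q_vand (hp : p = 4 * h + 1) :
    q p h (vandermonde (fun j : Fin (2 * h) => (((j : ℕ) : ZMod p) + 1) ^ 2)).det = (-1) ^ h := by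
  have h1 := vand_fact (F := ZMod p) (2 * h)
  have h2 : (∏ k ∈ range (2 * h), (((2 * k + 1)! : ℕ) : ZMod p)) ^ 2 = 1 := by
    rw [sq]
    nth_rewrite 2 [← prod_range_reflect]
    rw [← prod_mul_distrib]
    refine prod_eq_one fun k hk => ?_
    rw [mem_range] at hk
    have := wilson_gen (p := p) (2 * k + 1) (by omega)
    rw [show p - 1 - (2 * k + 1) = 2 * (2 * h - 1 - k) + 1 by omega] at this
    rw [this, show 2 * k + 1 + 1 = 2 * (k + 1) by ring, pow_mul]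
    simp
  have h3 : q p h (∏ k ∈ range (2 * h), (((2 * k + 1)! : ℕ) : ZMod p)) = 1 := by
    unfold q
    rw [pow_mul, h2, one_pow]
  rw [← h1, q_mul, q_fact hp] at h3
  calc q p h (vandermonde (fun j : Fin (2 * h) => (((j : ℕ) : ZMod p) + 1) ^ 2)).det
      = q p h (vandermonde (fun j : Fin (2 * h) => (((j : ℕ) : ZMod p) + 1) ^ 2)).det
        * ((-1) ^ h * (-1) ^ h) := by rw [sgn_sq, mul_one]
    _ = (-1) ^ h := by rw [← mul_assoc, h3, one_mul]

lemma q_int (hp : p = 4 * h + 1) (a : ℤ) : ((legendreSym p a : ℤ) : ZMod p) = q p h (a : ZMod p) := by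
  rw [legendreSym.eq_pow]
  unfold q
  rw [show p / 2 = 2 * h by omega]

lemma q_two (hp : p = 4 * h + 1) : q p h 2 = (-1) ^ h := by
  have h1 := q_int hp 2
  have hp2 : p ≠ 2 := by omega
  rw [legendreSym.at_two hp2] at h1
  push_cast at h1
  rw [← h1, ZMod.χ₈_nat_eq_if_mod_eight]
  rcases Nat.even_or_odd h with hh | hh
  · obtain ⟨k, hk⟩ := hh
    rw [if_neg (by omega), if_pos (by omega), Even.neg_one_pow ⟨k, hk⟩]
    simp
  · obtain ⟨k, hk⟩ := hh
    rw [if_neg (by omega), if_neg (by omega), Odd.neg_one_pow ⟨k, hk⟩]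
    simp

lemma q_superfact (hp : p = 4 * h + 1) :
    q p h (∏ i ∈ range (2 * h), ((i ! : ℕ) : ZMod p)) = q p h ((h ! : ℕ) : ZMod p) := by
  have h1 := congrArg (Nat.cast (R := ZMod p)) (superfact h)
  push_cast at h1
  have h2 := congrArg (q p h) h1
  rw [q_mul, q_mul, q_mul, q_pow, q_pow, q_two hp, q_fact hp, sgn_pow_self] at h2
  have h3 : q p h (∏ t ∈ range h, (((2 * t)! : ℕ) : ZMod p)) ^ 2 = 1 := by
    refine q_sq' hp ?_
    rw [prod_ne_zero_iff]
    intro t ht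
    rw [mem_range] at ht
    exact fact_ne (by omega)
  rw [h3, one_mul] at h2
  have h4 : q p h ((h ! : ℕ) : ZMod p) * q p h ((h ! : ℕ) : ZMod p) = 1 :=
    q_sq hp (fact_ne (by omega))
  have h5 := sgn_sq (p := p) h
  linear_combination ((-1 : ZMod p) ^ h * q p h ((h ! : ℕ) : ZMod p)) * h2
    + (q p h ((h ! : ℕ) : ZMod p) - q p h (∏ i ∈ range (2 * h), ((i ! : ℕ) : ZMod p))
      * q p h ((h ! : ℕ) : ZMod p) ^ 2) * h5
    - q p h (∏ i ∈ range (2 * h), ((i ! : ℕ) : ZMod p)) * h4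

/-- Products of binomial coefficients and factorials. -/
lemma prod_choose (n k : ℕ) (hk : k ≤ n + 1) :
    (∏ i ∈ Ico k (n + 1), (2 * n + 1).choose i) * ∏ i ∈ Ico k (2 * n + 2 - k), (i)!
      = ((2 * n + 1)!) ^ (n + 1 - k) := by
  have h1 : ∏ i ∈ Ico k (2 * n + 2 - k), (i)!
      = ∏ i ∈ Ico k (n + 1), ((i)! * (2 * n + 1 - i)!) := by
    rw [← prod_Ico_consecutive _ hk (show n + 1 ≤ 2 * n + 2 - k by omega), prod_mul_distrib]
    congr 1
    have := Finset.prod_Ico_reflect (fun i => (i)!) k (m := n + 1) (n := 2 * n + 1) (by omega)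
    rw [show 2 * n + 1 + 1 - (n + 1) = n + 1 by omega,
      show 2 * n + 1 + 1 - k = 2 * n + 2 - k by omega] at this
    exact this.symm
  rw [h1, ← prod_mul_distrib]
  have h2 : ∀ i ∈ Ico k (n + 1), (2 * n + 1).choose i * ((i)! * (2 * n + 1 - i)!) = (2 * n + 1)! := by
    intro i hi
    rw [mem_Ico] at hi
    rw [← mul_assoc]
    exact Nat.choose_mul_factorial_mul_factorial (by omega)
  rw [prod_congr rfl h2, prod_const, Nat.card_Ico]

end Q238.SD
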